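import Mathlib
import Pool.Agent.Lib.MP_cc2426_co.One

set_option autoImplicit false

namespace Pool.Agent.Lib.MP_cc2426_co.Old.ConnectedOne

open Finset Pool.Agent.Lib.MP_cc2426_co

/-- Four edge-disjoint perfect matchings `σ 0, …, σ 3`, `a` with sum exactly `n - 1` and
`a 3 = 1`. If every set of left vertices that has the same set of neighbours in the first three
colours also has this set of neighbours in the fourth colour (the union of the first three
matchings has the same components as the whole graph; this holds when it is connected), there is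
a matching with exactly `a i` edges of colour `i`. -/
theorem result (n : ℕ) (σ : Fin 4 → Equiv.Perm (Fin n))
    (hd : ∀ i j, i ≠ j → ∀ x, σ i x ≠ σ j x) (a : Fin 4 → ℕ) (hs : (∑ i, a i) + 1 = n)
    (h1 : a 3 = 1)
    (cl : ∀ A : Finset (Fin n), A.image (σ 0) = A.image (σ 1) → A.image (σ 0) = A.image (σ 2) →
      A.image (σ 0) = A.image (σ 3)) :
    ∃ S : Finset (Fin n), ∃ c : Fin n → Fin 4,
      Set.InjOn (fun x => σ (c x) x) (S : Set (Fin n)) ∧
      ∀ i : Fin 4, (S.filter (fun x => c x = i)).card = a i :=
  Comp.comp (fun W _ _ σ hd a hs h1 h => One.conn W σ hd a hs h1 h) n (Fin n)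
    (Fintype.card_fin n) σ hd a (by rw [Fintype.card_fin]; exact hs) h1 cl

end Pool.Agent.Lib.MP_cc2426_co.Old.ConnectedOne
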