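import Mathlib
import Pool.Agent.Lib.MP_cc2426_co.Hole

set_option autoImplicit false

namespace Pool.Agent.Lib.MP_cc2426_co.Old.OneEdge

open Finset

/-- Four edge-disjoint perfect matchings `σ 0, …, σ 3`, `a` with sum exactly `n - 1` and
`a 3 = 1`. Suppose that for all different colours `s`, `u`, `t` other than `3`: every nonempty
proper set of left vertices that is a union of `(s, u)`-coloured cycles has at least two right
neighbours in colour `s` that are not neighbours in colour `t`, and the number of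
`(s, u)`-coloured cycles is at most `a t + 1`. Then there is a matching with exactly `a i` edges
of colour `i`. -/
theorem result (n : ℕ) (σ : Fin 4 → Equiv.Perm (Fin n))
    (hd : ∀ i j, i ≠ j → ∀ x, σ i x ≠ σ j x) (a : Fin 4 → ℕ) (hs : (∑ i, a i) + 1 = n)
    (h1 : a 3 = 1)
    (hC : ∀ s u t : Fin 4, s ≠ 3 → u ≠ 3 → t ≠ 3 → s ≠ u → s ≠ t → u ≠ t →
      ∀ A : Finset (Fin n), A.Nonempty → A ≠ univ → A.image (σ s) = A.image (σ u) →
        2 ≤ (A.image (σ s) \ A.image (σ t)).card)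
    (hK : ∀ s u t : Fin 4, s ≠ 3 → u ≠ 3 → t ≠ 3 → s ≠ u → s ≠ t → u ≠ t →
      Nat.card (Quotient (Equiv.Perm.SameCycle.setoid ((σ s)⁻¹ * σ u))) ≤ a t + 1) :
    ∃ S : Finset (Fin n), ∃ c : Fin n → Fin 4,
      Set.InjOn (fun x => σ (c x) x) (S : Set (Fin n)) ∧
      ∀ i : Fin 4, (S.filter (fun x => c x = i)).card = a i := by
  have ne3 : ∀ s : Fin 3, s.castSucc ≠ 3 := by decide
  have inj : ∀ s u : Fin 3, s ≠ u → s.castSucc ≠ u.castSucc := by decide
  have four : ∀ i : Fin 4, i = 3 ∨ ∃ t : Fin 3, i = t.castSucc := by decide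
  rw [Fin.sum_univ_four] at hs
  let x : Fin n := ⟨0, by omega⟩
  obtain ⟨S, c, hx, hy, hi, hc⟩ := Pool.Agent.Lib.MP_cc2426_co.Hub.hole
    (fun t => σ t.castSucc) x (σ 3 x) (fun t => hd _ _ (ne3 t) x) (fun t => a t.castSucc)
    (by rw [Fintype.card_fin]; change a 0 + a 1 + a 2 + 2 = n; omega)
    (fun s u t h2 h3 h4 => hC _ _ _ (ne3 s) (ne3 u) (ne3 t) (inj _ _ h2) (inj _ _ h3) (inj _ _ h4))
    (fun s u t h2 h3 h4 => hK _ _ _ (ne3 s) (ne3 u) (ne3 t) (inj _ _ h2) (inj _ _ h3) (inj _ _ h4))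
  have nx : ∀ r ∈ S, r ≠ x := fun r hr h => hx (h ▸ hr)
  refine ⟨insert x S, fun r => if r = x then 3 else (c r).castSucc, ?_, fun i => ?_⟩
  · intro r hr r' hr' h
    rcases mem_insert.1 (mem_coe.1 hr) with rfl | hr <;>
      rcases mem_insert.1 (mem_coe.1 hr') with rfl | hr'
    · rfl
    · simp only [if_pos, if_neg (nx _ hr')] at h
      exact absurd h.symm (hy _ hr')
    · simp only [if_pos, if_neg (nx _ hr)] at h
      exact absurd h (hy _ hr)
    · simp only [if_neg (nx _ hr), if_neg (nx _ hr')] at h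
      exact hi _ hr _ hr' h
  · rw [filter_insert]
    rcases four i with rfl | ⟨t, rfl⟩
    · rw [if_pos (if_pos rfl), filter_eq_empty_iff.2 (fun r hr h =>
        ne3 _ ((if_neg (nx r hr)).symm.trans h)), h1]
      rfl
    · rw [if_neg (fun h => ne3 t (h.symm.trans (if_pos rfl))), ← hc t]
      congr 1
      exact filter_congr (fun r hr => by simp only [if_neg (nx r hr), Fin.castSucc_inj])

end Pool.Agent.Lib.MP_cc2426_co.Old.OneEdge
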