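import Mathlib
import Pool.Agent.Lib.MP_cc2426_co.Single

set_option autoImplicit false

namespace Pool.Agent.Lib.MP_cc2426_co.Old.TwoSingles

open Finset Pool.Agent.Lib.MP_cc2426_co.Single

/-- Four edge-disjoint perfect matchings of a bipartite graph with `n + n` vertices, `a` with sum
exactly `n - 1` and two entries equal to one: there is a matching with exactly `a i` edges of
colour `i`. -/
theorem result (n : ℕ) (σ : Fin 4 → Equiv.Perm (Fin n))
    (hd : ∀ x : Fin n, ∀ i j : Fin 4, i ≠ j → σ i x ≠ σ j x) (a : Fin 4 → ℕ)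
    (hs : (∑ i, a i) + 1 = n) (p q : Fin 4) (hpq : p ≠ q) (hp : a p = 1) (hq : a q = 1) :
    ∃ S : Finset (Fin n), ∃ c : Fin n → Fin 4,
      Set.InjOn (fun x => σ (c x) x) (S : Set (Fin n)) ∧
      ∀ i : Fin 4, (S.filter (fun x => c x = i)).card = a i := by
  have key : ∀ α β : Fin 4, (∀ t, t = α ∨ t = β ∨ t = p ∨ t = q) → α ≠ β → α ≠ p → α ≠ q →
      β ≠ p → β ≠ q → a β ≤ a α → ∃ S : Finset (Fin n), ∃ c : Fin n → Fin 4,
        Set.InjOn (fun x => σ (c x) x) (S : Set (Fin n)) ∧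
        ∀ i : Fin 4, (S.filter (fun x => c x = i)).card = a i := by
    intro α β h0 h1 h2 h3 h4 h5 h6
    have H : Four (fun i => (σ α)⁻¹ * σ i) α β p q a :=
      ⟨h0, h1, h2, h3, h4, h5, hpq, inv_mul_cancel _,
        fun x h => hd x β α h1.symm (by simpa [Equiv.symm_apply_eq] using h),
        fun x h => hd x p β h4.symm (by simpa using h), hp, hq, h6, by simpa using hs⟩
    obtain ⟨S, c, g1, g2⟩ := H.main
    exact ⟨S, c, fun x hx y hy h => g1 hx hy (congrArg (fun z => (σ α)⁻¹ z) h), g2⟩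
  have ex : ∀ p q : Fin 4, p ≠ q → ∃ α β : Fin 4, (∀ t, t = α ∨ t = β ∨ t = p ∨ t = q) ∧
      α ≠ β ∧ α ≠ p ∧ α ≠ q ∧ β ≠ p ∧ β ≠ q := by decide
  obtain ⟨α, β, h0, h1, h2, h3, h4, h5⟩ := ex p q hpq
  rcases le_total (a β) (a α) with h | h
  · exact key α β h0 h1 h2 h3 h4 h5 h
  · exact key β α (fun t => (h0 t).elim (fun e => Or.inr (Or.inl e))
      (fun e => e.elim Or.inl (fun e' => Or.inr (Or.inr e')))) h1.symm h4 h5 h2 h3 h

end Pool.Agent.Lib.MP_cc2426_co.Old.TwoSingles
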